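import Mathlib
import Pool.Agent.H95.GN.Asm1
import Pool.Agent.H95.GN.MC
import Pool.Agent.H95.GN.YV
import Pool.Agent.H95.GN.BP
import Pool.Agent.H95.GN.NM
import Pool.Agent.H95.GN.TC
import Pool.Agent.H95.GN.NW
import Pool.Agent.H58.GN.PS
import Pool.Agent.H95.GN.DI
import Pool.Agent.H95.GN.AT
import Pool.Agent.H95.GN.LA
import Pool.Agent.H95.GN.BE
import Pool.Agent.H95.GN.G1
import Pool.Agent.H95.GN.N1
import Pool.Agent.H69.GN.CV
import Pool.Agent.H69.GN.EX
import Pool.Agent.H95.GN.BV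
import Pool.Agent.H95.GN.VW
import Pool.Agent.H95.GN.SC
import Pool.Agent.H95.GN.AJ
import Pool.Agent.H95.GN.UB

/-!
# Cardinality of Boolean algebras with the Grothendieck or the Nikodym property, and traces of
measures on Grothendieck algebras without the Nikodym property

Definitions (Pool/Agent/H95/GN/Defs.lean): `St A` is the Stone space, `HasGrothendieck A`,
`HasNikodym A` are the two properties, `IsMeas μ` says that `μ` is a bounded finitely additive
measure, `VarLE μ U C` that its variation below `U` is at most `C`, and `Large μ U` that the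
variations of the measures `μ n` below `U` are not bounded.
-/

open Filter Topology Set H95.GN

namespace Pool.Agent.Results.MP_e7ffba_an.NonMeager

universe u

theorem result :
    (∀ (A : Type u) [BooleanAlgebra A] [Infinite A], HasGrothendieck A ∨ HasNikodym A →
      ∃ X : Set (ℕ → Bool), ¬ IsMeagre X ∧
        Cardinal.lift.{u} (Cardinal.mk X) ≤ Cardinal.mk A) ∧
    (∀ (A : Type u) [BooleanAlgebra A] (μ : ℕ → A → ℝ), HasGrothendieck A →
      (∀ n, IsMeas (μ n)) → (∀ a, ∃ C : ℝ, ∀ n, |μ n a| ≤ C) →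
      (∀ U, Large μ U → ∃ V, V ≤ U ∧ Large μ V ∧ Large μ (U \ V)) ∧
      (∀ U : ℕ → A, (∀ k l, k ≠ l → Disjoint (U k) (U l)) → (∀ k, Large μ (U k)) →
        ∀ S : Set ℕ, S.Infinite → ∀ h : ℕ → ℝ,
          ∃ a : A, {k | k ∈ S ∧ ∃ n, h k < |μ n (a ⊓ U k)|}.Infinite)) := by
  have hPS : T_PS.{u} := Pool.Agent.H58.GN.pf_PS
  have hTC : T_TC.{u} := pf_TC
  have hNW : T_NW.{u} := pf_NW
  have hBE : T_BE.{u} := pf_BE pf_LA
  have hEX : T_EX.{u} := pf_EX
  have hBV : T_BV.{u} := pf_BV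
  have hVW : T_VW.{u} := pf_VW
  refine ⟨fun A _ _ h => size_bound pf_YV (pf_NM pf_MC pf_BP) (pf_DI hPS) pf_AT
    (pf_G1 hBE hNW hTC) (pf_N1 hBE hEX hTC) (pf_CV hNW hTC) A h, ?_⟩
  intro A _ μ hG hM hb
  exact ⟨fun U hU => pf_AJ hEX hBV hVW pf_SC hNW hTC A μ U hG hM hb hU,
    fun U hd hL S hS h => pf_UB hEX hBV hVW hNW hTC A μ U hG hM hd hL S hS h⟩

end Pool.Agent.Results.MP_e7ffba_an.NonMeager
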