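import Mathlib
import Pool.Agent.H95.GN.F5
import Pool.Agent.H95.GN.F6
import Pool.Agent.H95.GN.BL
import Pool.Agent.H95.GN.RM
import Pool.Agent.H95.GN.SH
import Pool.Agent.H95.GN.UN
import Pool.Agent.H95.GN.FS
import Pool.Agent.H95.GN.PH
import Pool.Agent.H95.GN.TC
import Pool.Agent.H95.GN.NW
import Pool.Agent.H69.GN.EX
import Pool.Agent.H95.GN.BV
import Pool.Agent.H95.GN.VW
import Pool.Agent.H95.GN.UB

/-!
# A Boolean algebra of Borel sets without the Nikodym property for which no sequence of purely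
atomic measures violates the Nikodym or the Grothendieck property

Definitions: Pool/Agent/H95/GN/Defs.lean and Targets.lean. `lam` is the coin tossing measure on the
Cantor space `ℕ → Bool`, `flip n` changes the coordinate `n`, `dn n B` is the measure of the
symmetric difference of `B` and its image under `flip n`. `St A` is the Stone space of `A`.
-/

open Filter Topology Set H95.GN

namespace Pool.Agent.Results.MP_e7ffba_an.PurelyAtomic

/-- the measurable sets `B` of the Cantor space such that `n * dn n B` tends to zero -/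
def BalancedSets : BooleanSubalgebra (Set (ℕ → Bool)) := Bal pf_BL

/-- membership in `BalancedSets` -/
theorem mem_balancedSets (B : Set (ℕ → Bool)) : B ∈ BalancedSets ↔
    MeasurableSet B ∧ Tendsto (fun n : ℕ => (n : ℝ) * dn n B) atTop (𝓝 0) := Iff.rfl

theorem result :
    ¬ HasNikodym BalancedSets ∧ ¬ HasGrothendieck BalancedSets ∧
    (∀ ν : ℕ → St BalancedSets → ℝ, (∀ k, Summable (fun p => |ν k p|)) →
      (∀ a : BalancedSets,
        Tendsto (fun k => ∑' p, if p.1 a = true then ν k p else 0) atTop (𝓝 0)) →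
      Tendsto (fun k => ∑' p, |ν k p|) atTop (𝓝 0)) ∧
    (∀ ν : ℕ → St BalancedSets → ℝ, (∀ k, Summable (fun p => |ν k p|)) →
      (∀ a : BalancedSets, ∃ C : ℝ, ∀ k, |∑' p, if p.1 a = true then ν k p else 0| ≤ C) →
      ∃ C : ℝ, ∀ k, ∑' p, |ν k p| ≤ C) := by
  refine ⟨bal_not_nikodym pf_BL pf_RM,
    bal_not_grothendieck pf_BL pf_RM (pf_UB pf_EX pf_BV pf_VW pf_NW pf_TC), ?_, ?_⟩
  · intro ν h1 h2
    exact bal_atomic pf_BL pf_SH pf_UN pf_FS pf_PH ν h1 h2
  · intro ν h1 h2
    exact bal_atomic_bdd pf_BL pf_SH pf_UN pf_FS pf_PH ν h1 h2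

end Pool.Agent.Results.MP_e7ffba_an.PurelyAtomic
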